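import Pool.Agent.Lib.MP_2b3d4e_al.Main

/-! Maps that are affine on residue classes, periodic maps, coordinates on periodic sets. -/

namespace Pool.Agent.Lib.MP_2b3d4e_al.Tr

/-- Affine on every class modulo `M`. -/
def AffM (M : ℤ) (f : ℤ → ℤ) : Prop := ∀ r, ∃ d, ∀ k, f (r + k * M) = f r + k * d

/-- Affine on every class of some modulus. -/
def Aff (f : ℤ → ℤ) : Prop := ∃ M : ℤ, 0 < M ∧ AffM M f

/-- Constant on every class modulo `M`. -/
def PerM {α : Type} (M : ℤ) (J : ℤ → α) : Prop := ∀ r k, J (r + k * M) = J r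

/-- Constant on every class of some modulus. -/
def Per {α : Type} (J : ℤ → α) : Prop := ∃ M : ℤ, 0 < M ∧ PerM M J

/-- Preserves the sign. -/
def Sg (f : ℤ → ℤ) : Prop := ∀ n, 0 ≤ f n ↔ 0 ≤ n

variable {α β : Type} {f g : ℤ → ℤ} {J : ℤ → α} {M M' : ℤ}

theorem AffM.of_dvd (h : AffM M f) (hd : M ∣ M') : AffM M' f := by
  obtain ⟨c, rfl⟩ := hd
  intro r
  obtain ⟨d, hd⟩ := h r
  refine ⟨c * d, fun k => ?_⟩
  have := hd (k * c)
  rw [show r + k * (M * c) = r + k * c * M by ring, this]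
  ring

theorem PerM.of_dvd (h : PerM M J) (hd : M ∣ M') : PerM M' J := by
  obtain ⟨c, rfl⟩ := hd
  intro r k
  rw [show r + k * (M * c) = r + k * c * M by ring, h]

theorem PerM.eq (h : PerM M J) {x y : ℤ} (hxy : x % M = y % M) : J x = J y := by
  obtain ⟨c, hc⟩ := Int.ModEq.dvd hxy
  rw [show y = x + c * M by linarith, h]

theorem Aff.comp (hf : Aff f) (hg : Aff g) : Aff fun x => f (g x) := by
  obtain ⟨M, hM, hf⟩ := hf
  obtain ⟨M', hM', hg⟩ := hg
  refine ⟨M * M', mul_pos hM hM', fun r => ?_⟩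
  obtain ⟨d', hd'⟩ := hg r
  obtain ⟨d, hd⟩ := hf (g r)
  refine ⟨d' * d, fun k => ?_⟩
  show f (g (r + k * (M * M'))) = f (g r) + k * (d' * d)
  rw [show r + k * (M * M') = r + k * M * M' by ring, hd',
    show g r + k * M * d' = g r + k * d' * M by ring, hd]
  ring

theorem aff_lin (a b : ℤ) : Aff fun x => a + b * x :=
  ⟨1, one_pos, fun r => ⟨b, fun k => by ring⟩⟩

theorem aff_id : Aff fun x => x := ⟨1, one_pos, fun r => ⟨1, fun k => by ring⟩⟩

theorem Aff.add (hf : Aff f) (hg : Aff g) : Aff fun x => f x + g x := by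
  obtain ⟨M, hM, hf⟩ := hf
  obtain ⟨M', hM', hg⟩ := hg
  refine ⟨M * M', mul_pos hM hM', fun r => ?_⟩
  obtain ⟨d, hd⟩ := hf.of_dvd (dvd_mul_right M M') r
  obtain ⟨d', hd'⟩ := hg.of_dvd (dvd_mul_left M' M) r
  refine ⟨d + d', fun k => ?_⟩
  show f _ + g _ = f r + g r + _
  rw [hd, hd']
  ring

theorem Aff.add_const (hf : Aff f) (a : ℤ) : Aff fun x => f x + a := by
  simpa [add_comm] using (aff_lin a 1).comp hf

theorem Aff.lin (hf : Aff f) (a b : ℤ) : Aff fun x => a + b * f x := (aff_lin a b).comp hf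

theorem Aff.div (hf : Aff f) {m : ℤ} (hm : 0 < m) : Aff fun x => f x / m := by
  have : Aff fun x => x / m :=
    ⟨m, hm, fun r => ⟨1, fun k => by
      show (r + k * m) / m = r / m + k * 1
      rw [Int.add_mul_ediv_right _ _ hm.ne', mul_one]⟩⟩
  exact this.comp hf

theorem Per.aff {J : ℤ → ℤ} (h : Per J) : Aff J := by
  obtain ⟨M, hM, h⟩ := h
  exact ⟨M, hM, fun r => ⟨0, fun k => by rw [h]; ring⟩⟩

theorem Per.comp (h : Per J) (hg : Aff g) : Per fun x => J (g x) := by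
  obtain ⟨M, hM, h⟩ := h
  obtain ⟨M', hM', hg⟩ := hg
  refine ⟨M * M', mul_pos hM hM', fun r k => ?_⟩
  obtain ⟨d', hd'⟩ := hg r
  show J (g (r + k * (M * M'))) = J (g r)
  rw [show r + k * (M * M') = r + k * M * M' by ring, hd',
    show g r + k * M * d' = g r + k * d' * M by ring, h]

theorem Per.map (h : Per J) (F : α → β) : Per fun x => F (J x) := by
  obtain ⟨M, hM, h⟩ := h
  exact ⟨M, hM, fun r k => congrArg F (h r k)⟩

theorem Per.map₂ {γ : Type} {J' : ℤ → β} (h : Per J) (h' : Per J') (F : α → β → γ) :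
    Per fun x => F (J x) (J' x) := by
  obtain ⟨M, hM, h⟩ := h
  obtain ⟨M', hM', h'⟩ := h'
  refine ⟨M * M', mul_pos hM hM', fun r k => ?_⟩
  show F (J _) (J' _) = F (J r) (J' r)
  rw [h.of_dvd (dvd_mul_right M M'), h'.of_dvd (dvd_mul_left M' M)]

theorem per_pi {ι : Type} [Fintype ι] {J : ι → ℤ → α} (h : ∀ i, Per (J i)) :
    Per fun x i => J i x := by
  choose M hM h using h
  refine ⟨∏ i, M i, Finset.prod_pos fun i _ => hM i, fun r k => funext fun i => ?_⟩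
  exact (h i).of_dvd (Finset.dvd_prod_of_mem M (Finset.mem_univ i)) r k

theorem Aff.mod (hf : Aff f) {m : ℤ} (hm : 0 < m) : Per fun x => f x % m := by
  have : Per fun x => x % m := ⟨m, hm, fun r k => Int.add_mul_emod_self_right r k m⟩
  exact this.comp hf

theorem Aff.modeq (hf : Aff f) {m : ℤ} (hm : 0 < m) (a : ℤ) : Per fun x => f x % m = a :=
  (hf.mod hm).map fun z => z = a

theorem Aff.ite {p : ℤ → Prop} [DecidablePred p] (hp : Per p) (hf : Aff f) (hg : Aff g) :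
    Aff fun x => if p x then f x else g x := by
  obtain ⟨M, hM, hf⟩ := hf
  obtain ⟨M', hM', hg⟩ := hg
  obtain ⟨M'', hM'', hp⟩ := hp
  refine ⟨M * M' * M'', by positivity, fun r => ?_⟩
  have hp' := hp.of_dvd (dvd_mul_left M'' (M * M')) r
  by_cases h : p r
  · obtain ⟨d, hd⟩ := hf.of_dvd ((dvd_mul_right M M').mul_right M'') r
    refine ⟨d, fun k => ?_⟩
    show (if p _ then _ else _) = (if p r then _ else _) + _
    rw [if_pos h, if_pos ((hp' k).symm ▸ h), hd]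
  · obtain ⟨d, hd⟩ := hg.of_dvd ((dvd_mul_left M' M).mul_right M'') r
    refine ⟨d, fun k => ?_⟩
    show (if p _ then _ else _) = (if p r then _ else _) + _
    rw [if_neg h, if_neg ((hp' k).symm ▸ h), hd]

theorem aff_family (N : ℕ) {F : ℕ → ℤ → ℤ} (hF : ∀ i, Aff (F i)) {J : ℤ → ℕ} (hJ : Per J)
    (hN : ∀ x, J x < N) : Aff fun x => F (J x) x := by
  choose M hM hF using hF
  obtain ⟨M', hM', hJ⟩ := hJ
  refine ⟨(∏ i ∈ Finset.range N, M i) * M',
    mul_pos (Finset.prod_pos fun i _ => hM i) hM', fun r => ?_⟩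
  obtain ⟨d, hd⟩ := (hF (J r)).of_dvd
    ((Finset.dvd_prod_of_mem M (Finset.mem_range.2 (hN r))).mul_right M') r
  refine ⟨d, fun k => ?_⟩
  show F (J _) _ = F (J r) r + _
  rw [hJ.of_dvd (dvd_mul_left M' _), hd]

theorem mem_iff {g : Equiv.Perm ℤ} : g ∈ CT ↔ Aff g ∧ Sg g := by
  rw [mem_CT_iff]
  refine and_congr ?_ Iff.rfl
  constructor
  · rintro ⟨m, hm, h⟩
    refine ⟨m, hm, fun r => ⟨g (r + m) - g r, fun k => ?_⟩⟩
    obtain ⟨a, b, hab⟩ := h r
    have e1 := hab (r + k * m) (Int.modEq_iff_dvd.2 ⟨-k, by ring⟩)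
    have e2 := hab r (Int.ModEq.refl _)
    have e3 := hab (r + m) (Int.modEq_iff_dvd.2 ⟨-1, by ring⟩)
    have : ((g (r + k * m) : ℤ) : ℚ) = ((g r + k * (g (r + m) - g r) : ℤ) : ℚ) := by
      push_cast
      rw [e1, e2, e3]
      push_cast
      ring
    exact_mod_cast this
  · rintro ⟨m, hm, h⟩
    refine ⟨m, hm, fun r => ?_⟩
    obtain ⟨d, hd⟩ := h r
    refine ⟨(d : ℚ) / m, g r - (d : ℚ) / m * r, fun n hn => ?_⟩
    obtain ⟨c, hc⟩ := Int.modEq_iff_dvd.1 hn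
    have : (m : ℚ) ≠ 0 := by exact_mod_cast hm.ne'
    rw [show n = r + -c * m by linarith, hd]
    push_cast
    field_simp
    ring

theorem lin_nonneg {a m q : ℤ} (h0 : 0 ≤ a) (h1 : a < m) : 0 ≤ a + m * q ↔ 0 ≤ q :=
  pt_nonneg_iff ⟨a, m, h0, h1⟩ q

theorem lin_mod {a m : ℤ} (h0 : 0 ≤ a) (h1 : a < m) (q : ℤ) : (a + m * q) % m = a := by
  rw [Int.add_mul_emod_self_left, Int.emod_eq_of_lt h0 h1]

theorem lin_div {a m : ℤ} (h0 : 0 ≤ a) (h1 : a < m) (q : ℤ) : (a + m * q) / m = q := by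
  rw [Int.add_mul_ediv_left _ _ (by omega), Int.ediv_eq_zero_of_lt h0 h1, zero_add]

/-- Coordinates on a nonempty periodic set. -/
theorem exists_coord {u : ℤ → Prop} (hu : Per u) (hne : ∃ x, u x) :
    ∃ φ φ' : ℤ → ℤ, Aff φ ∧ Aff φ' ∧ Sg φ ∧ (∀ y, u (φ y)) ∧ (∀ y, φ' (φ y) = y) ∧
      ∀ x, u x → φ (φ' x) = x := by
  classical
  obtain ⟨M, hM, hu⟩ := hu
  have hmod : ∀ x, u (x % M) = u x := fun x => hu.eq (Int.emod_emod_of_dvd x dvd_rfl)
  let S : Finset ℤ := (Finset.Ico 0 M).filter u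
  have hS : ∀ r, r ∈ S ↔ (0 ≤ r ∧ r < M) ∧ u r := fun r => by simp [S]
  have hSm : ∀ x, u x → x % M ∈ S := fun x hx =>
    (hS _).2 ⟨⟨Int.emod_nonneg _ hM.ne', Int.emod_lt_of_pos _ hM⟩, (hmod x).symm ▸ hx⟩
  have hk : (0 : ℤ) < S.card := by
    obtain ⟨x, hx⟩ := hne
    exact_mod_cast Finset.card_pos.2 ⟨_, hSm x hx⟩
  obtain ⟨R, R', h1, h2⟩ : ∃ R R' : ℤ → ℤ,
      (∀ i : ℤ, 0 ≤ i → i < S.card → R i ∈ S ∧ R' (R i) = i) ∧
      ∀ r ∈ S, 0 ≤ R' r ∧ R' r < S.card ∧ R (R' r) = r := by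
    let e := S.equivFin
    refine ⟨fun i => if h : i.toNat < S.card then (e.symm ⟨i.toNat, h⟩ : ℤ) else 0,
      fun r => if h : r ∈ S then ((e ⟨r, h⟩ : ℕ) : ℤ) else 0, fun i h0 h1 => ?_, fun r hr => ?_⟩
    · have h : i.toNat < S.card := by omega
      simp only [dif_pos h]
      refine ⟨(e.symm _).2, ?_⟩
      rw [dif_pos (e.symm _).2]
      simp only [Subtype.coe_eta, Equiv.apply_symm_apply]
      omega
    · simp only [dif_pos hr]
      have h : ((e ⟨r, hr⟩ : ℕ) : ℤ).toNat < S.card := by simp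
      refine ⟨by positivity, by exact_mod_cast (e ⟨r, hr⟩).2, ?_⟩
      rw [dif_pos h]
      simp
  have h3 : ∀ y : ℤ, R (y % S.card) ∈ S ∧ R' (R (y % S.card)) = y % S.card := fun y =>
    h1 _ (Int.emod_nonneg _ hk.ne') (Int.emod_lt_of_pos _ hk)
  refine ⟨fun y => R (y % S.card) + M * (y / S.card), fun x => R' (x % M) + S.card * (x / M),
    ?_, ?_, fun y => ?_, fun y => ?_, fun y => ?_, fun x hx => ?_⟩
  · simpa using ((aff_id.mod hk).map R).aff.add ((aff_id.div hk).lin 0 M)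
  · simpa using ((aff_id.mod hM).map R').aff.add ((aff_id.div hM).lin 0 S.card)
  · obtain ⟨⟨a, b⟩, -⟩ := (hS _).1 (h3 y).1
    rw [lin_nonneg a b, Int.ediv_nonneg_iff_of_pos hk]
  · show u (R (y % S.card) + M * (y / S.card))
    rw [mul_comm M, hu]
    exact ((hS _).1 (h3 y).1).2
  · obtain ⟨⟨a, b⟩, -⟩ := (hS _).1 (h3 y).1
    show R' ((R (y % S.card) + M * (y / S.card)) % M) +
      S.card * ((R (y % S.card) + M * (y / S.card)) / M) = y
    rw [lin_mod a b, lin_div a b, (h3 y).2, Int.emod_add_mul_ediv]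
  · obtain ⟨a, b, c⟩ := h2 _ (hSm x hx)
    show R ((R' (x % M) + S.card * (x / M)) % S.card) +
      M * ((R' (x % M) + S.card * (x / M)) / S.card) = x
    rw [lin_mod a b, lin_div a b, c, Int.emod_add_mul_ediv]

end Pool.Agent.Lib.MP_2b3d4e_al.Tr
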