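import Pool.Agent.Lib.MP_2b3d4e_al.Tr.Aff

/-! Elements of finite order are products of two involutions; involutions are rounds. -/

namespace Pool.Agent.Lib.MP_2b3d4e_al.Tr

open RC

theorem slope_eq {g : Equiv.Perm ℤ} (hs : Sg g) {N : ℕ} (hN : 0 < N) (h : g ^ N = 1)
    {x M d : ℤ} (hM : 0 < M) (hx : ∀ k, g (x + k * M) = x + k * d) : d = M := by
  have h1 : ∀ (i : ℕ) (k : ℤ), (g ^ i) (x + k * M ^ i) = x + k * d ^ i := by
    intro i
    induction i with
    | zero => intro k; simp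
    | succ i ih =>
      intro k
      rw [pow_succ, Equiv.Perm.mul_apply, show x + k * M ^ (i + 1) = x + k * M ^ i * M by ring,
        hx, show x + k * M ^ i * d = x + k * d * M ^ i by ring, ih]
      ring
  have h2 := h1 N 1
  rw [h, Equiv.Perm.one_apply] at h2
  have h3 : M ^ N = d ^ N := by linarith
  have h4 : 0 < d := by
    have a1 := hs (x + (|x| + 1) * M)
    have a2 := hs (x + -(|x| + 1) * M)
    rw [hx] at a1 a2
    have b1 := le_abs_self x
    have b2 := neg_abs_le x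
    have b3 := abs_nonneg x
    have c1 : 0 ≤ x + (|x| + 1) * d := a1.2 (by nlinarith)
    have c2 : ¬ 0 ≤ x + -(|x| + 1) * d := fun h => absurd (a2.1 h) (by nlinarith)
    nlinarith
  exact ((pow_left_inj₀ hM.le h4.le hN.ne').1 h3).symm

theorem sep_one {g : Equiv.Perm ℤ} (hg : g ∈ CT) {N : ℕ} (hN : 0 < N) (h : g ^ N = 1) :
    ∃ M : ℤ, 0 < M ∧ ∀ x, M ∣ g x - x → g x = x := by
  obtain ⟨⟨M, hM, ha⟩, hs⟩ := mem_iff.1 hg
  have key : ∀ r, ∃ c : ℤ, 0 < c ∧ ∀ k, c ∣ g (r + k * M) - (r + k * M) →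
      g (r + k * M) = r + k * M := by
    intro r
    obtain ⟨d, hd⟩ := ha r
    by_cases hdM : d = M
    · refine ⟨|g r - r| + 1, by positivity, fun k hk => ?_⟩
      rw [hd, hdM] at hk ⊢
      rw [show g r + k * M - (r + k * M) = g r - r by ring] at hk
      have := Int.eq_zero_of_abs_lt_dvd hk (by linarith)
      linarith
    · refine ⟨|d - M|, abs_pos.2 (sub_ne_zero.2 hdM), fun k hk => (hdM ?_).elim⟩
      rw [hd, abs_dvd] at hk
      obtain ⟨c, hc⟩ := hk
      refine slope_eq hs hN h hM (x := r + (k - c) * M) fun j => ?_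
      rw [show r + (k - c) * M + j * M = r + (k - c + j) * M by ring, hd]
      linarith
  choose c hc key using key
  refine ⟨∏ r ∈ Finset.Ico 0 M, c r, Finset.prod_pos fun r _ => hc r, fun x hx => ?_⟩
  have e : x = x % M + x / M * M := (Int.emod_add_ediv_mul x M).symm
  have h1 : c (x % M) ∣ g x - x := (Finset.dvd_prod_of_mem c (Finset.mem_Ico.2
    ⟨Int.emod_nonneg _ hM.ne', Int.emod_lt_of_pos _ hM⟩)).trans hx
  have h2 := key (x % M) (x / M)
  rw [← e] at h2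
  exact h2 h1

theorem zpow_eq_pow {w : Equiv.Perm ℤ} {N : ℕ} (hN : 0 < N) (h : w ^ N = 1) (i : ℤ) :
    ∃ j : Fin N, w ^ i = w ^ (j : ℕ) := by
  have h0 : (0 : ℤ) < N := by exact_mod_cast hN
  have h1 := Int.emod_nonneg i h0.ne'
  have h2 := Int.emod_lt_of_pos i h0
  refine ⟨⟨(i % N).toNat, by omega⟩, ?_⟩
  rw [zpow_eq_zpow_emod' i h, ← zpow_natCast, Int.toNat_of_nonneg h1]

theorem sep_all {w : Equiv.Perm ℤ} (hw : w ∈ CT) {N : ℕ} (hN : 0 < N) (h : w ^ N = 1) :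
    ∃ M : ℤ, 0 < M ∧ ∀ (i : ℤ) x, M ∣ (w ^ i) x - x → (w ^ i) x = x := by
  have key : ∀ j : Fin N, ∃ M : ℤ, 0 < M ∧
      ∀ x, M ∣ (w ^ (j : ℕ)) x - x → (w ^ (j : ℕ)) x = x := fun j =>
    sep_one (CT.pow_mem hw j) hN (by rw [← pow_mul, mul_comm, pow_mul, h, one_pow])
  choose M hM key using key
  refine ⟨∏ j, M j, Finset.prod_pos fun j _ => hM j, fun i x hx => ?_⟩
  obtain ⟨j, hj⟩ := zpow_eq_pow hN h i
  rw [hj] at hx ⊢
  exact key j x ((Finset.dvd_prod_of_mem M (Finset.mem_univ j)).trans hx)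

theorem zz (w : Equiv.Perm ℤ) (i j x : ℤ) : (w ^ i) ((w ^ j) x) = (w ^ (i + j)) x := by
  rw [zpow_add, Equiv.Perm.mul_apply]

/-- An element of finite order is a product of two involutions. -/
theorem two_inv {w : Equiv.Perm ℤ} (hw : w ∈ CT) {N : ℕ} (hN : 0 < N) (h : w ^ N = 1) :
    ∃ a ∈ CT, ∃ b ∈ CT, a * a = 1 ∧ b * b = 1 ∧ w = a * b := by
  obtain ⟨M, hM, hsep⟩ := sep_all hw hN h
  have : Nonempty (Fin N) := ⟨⟨0, hN⟩⟩
  choose am ham using fun v : Fin N → ℤ => Finite.exists_min v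
  let J : ℤ → ℕ := fun x => am fun i => (w ^ (i : ℕ)) x % M
  have hJ : Per J := (per_pi fun i : Fin N =>
    (mem_iff.1 (CT.pow_mem hw (i : ℕ))).1.mod hM).map fun v => (am v : ℕ)
  have hJN : ∀ x, J x < N := fun x => (am _).2
  have h1 : ∀ (i : ℤ) x, (w ^ (J x : ℤ)) x % M ≤ (w ^ i) x % M := by
    intro i x
    obtain ⟨j, hj⟩ := zpow_eq_pow hN h i
    rw [hj, zpow_natCast]
    exact ham (fun i => (w ^ (i : ℕ)) x % M) j
  have h2 : ∀ (i : ℤ) x, (w ^ (J ((w ^ i) x) : ℤ)) ((w ^ i) x) = (w ^ (J x : ℤ)) x := by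
    intro i x
    have a1 := h1 ((J x : ℤ) - i) ((w ^ i) x)
    have a2 := h1 ((J ((w ^ i) x) : ℤ) + i) x
    rw [zz, zz, sub_add_cancel] at a1
    have a3 := hsep ((J ((w ^ i) x) : ℤ) + i - J x) ((w ^ (J x : ℤ)) x)
    rw [zz, sub_add_cancel] at a3
    rw [zz]
    exact a3 (Int.ModEq.dvd (le_antisymm a2 a1))
  let b : ℤ → ℤ := fun x => (w ^ (2 * (J x : ℤ))) x
  have h3 : ∀ (i : ℤ) x, b ((w ^ i) x) = (w ^ (-i)) (b x) := by
    intro i x
    have a1 := h2 i x
    set j : ℤ := (J ((w ^ i) x) : ℤ)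
    show (w ^ (2 * j)) ((w ^ i) x) = (w ^ (-i)) ((w ^ (2 * (J x : ℤ))) x)
    rw [zz] at a1
    have a2 := congrArg (w ^ (j : ℤ)) a1
    have a3 := congrArg (w ^ ((J x : ℤ) - i)) a1
    rw [zz, zz] at a2 a3
    rw [zz, zz, show 2 * j + i = j + (j + i) by ring, a2,
      show -i + 2 * (J x : ℤ) = J x - i + J x by ring, ← a3]
    congr 2
    ring
  have hb : Function.Involutive b := by
    intro x
    show b ((w ^ (2 * (J x : ℤ))) x) = x
    rw [h3]
    show (w ^ (-(2 * (J x : ℤ)))) ((w ^ (2 * (J x : ℤ))) x) = x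
    rw [zz]
    simp
  have hbm : hb.toPerm b ∈ CT := by
    refine mem_iff.2 ⟨?_, fun x => ?_⟩
    · exact aff_family N (F := fun i x => (w ^ (2 * (i : ℤ))) x)
        (fun i => (mem_iff.1 (CT.zpow_mem hw _)).1) hJ hJN
    · exact (mem_iff.1 (CT.zpow_mem hw (2 * (J x : ℤ)))).2 x
  have hbb : hb.toPerm b * hb.toPerm b = 1 := by
    ext x
    exact hb x
  refine ⟨w * hb.toPerm b, CT.mul_mem hw hbm, hb.toPerm b, hbm, ?_, hbb, ?_⟩
  · ext x
    show w (b (w (b x))) = x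
    have := h3 1 (b x)
    rw [zpow_one, hb] at this
    rw [this]
    simp
  · rw [mul_assoc, hbb, mul_one]

/-- A product of class transpositions with pairwise disjoint supports. -/
def IsRd (t : Equiv.Perm ℤ) : Prop :=
  ∃ l : List (Equiv.Perm ℤ), (∀ τ ∈ l, τ ∈ gens) ∧ l.Pairwise Equiv.Perm.Disjoint ∧ l.prod = t

theorem prod_fix {l : List (Equiv.Perm ℤ)} {x : ℤ} (h : ∀ τ ∈ l, τ x = x) : l.prod x = x := by
  induction l with
  | nil => rfl
  | cons a l ih =>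
    rw [List.prod_cons, Equiv.Perm.mul_apply, ih fun τ hτ => h τ (List.mem_cons_of_mem _ hτ),
      h a List.mem_cons_self]

theorem prod_move {l : List (Equiv.Perm ℤ)} (hl : l.Pairwise Equiv.Perm.Disjoint) {x : ℤ}
    {τ : Equiv.Perm ℤ} (hτ : τ ∈ l) (hx : τ x ≠ x) : l.prod x = τ x := by
  induction l with
  | nil => exact absurd hτ List.not_mem_nil
  | cons a l ih =>
    obtain ⟨h1, h2⟩ := List.pairwise_cons.1 hl
    rw [List.prod_cons, Equiv.Perm.mul_apply]
    rcases List.mem_cons.1 hτ with rfl | h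
    · rw [prod_fix fun ρ hρ => (h1 ρ hρ x).resolve_left hx]
    · rw [ih h2 h]
      exact (h1 τ h (τ x)).resolve_right fun e => hx (τ.injective e)

theorem IsRd.mem {t : Equiv.Perm ℤ} (h : IsRd t) : t ∈ CT := by
  obtain ⟨l, h1, -, rfl⟩ := h
  exact Subgroup.list_prod_mem _ fun τ hτ => Subgroup.subset_closure (h1 τ hτ)

theorem gens_sq {τ : Equiv.Perm ℤ} (h : τ ∈ gens) : τ * τ = 1 := by
  rw [← inv_eq_iff_mul_eq_one]
  exact inv_eq_of_mem_gens h

theorem IsRd.sq {t : Equiv.Perm ℤ} (h : IsRd t) : t * t = 1 := by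
  obtain ⟨l, h1, h2, rfl⟩ := h
  ext x
  rw [Equiv.Perm.mul_apply, Equiv.Perm.one_apply]
  by_cases hx : ∀ τ ∈ l, τ x = x
  · rw [prod_fix hx, prod_fix hx]
  · push Not at hx
    obtain ⟨τ, hτ, hx⟩ := hx
    rw [prod_move h2 hτ hx, prod_move h2 hτ fun e => hx (τ.injective e),
      ← Equiv.Perm.mul_apply, gens_sq (h1 τ hτ), Equiv.Perm.one_apply]

/-- Involutions are rounds. -/
theorem rd_of_inv {t : Equiv.Perm ℤ} (ht : t ∈ CT) (h : t * t = 1) : IsRd t := by
  classical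
  have htt : ∀ x, t (t x) = x := fun x => by
    rw [← Equiv.Perm.mul_apply, h, Equiv.Perm.one_apply]
  obtain ⟨M0, hM0, hsep⟩ := sep_one ht (N := 2) two_pos (by rw [pow_two, h])
  obtain ⟨ha, hs⟩ := mem_iff.1 ht
  let p : ℤ → Prop := fun x => x % M0 < t x % M0
  have hpp : ∀ x, p x → ¬ p (t x) := fun x h1 h2 => by
    simp only [p, htt] at h1 h2
    omega
  obtain ⟨M2, hM2, hp⟩ : Per p := (aff_id.mod hM0).map₂ (ha.mod hM0) (· < ·)
  obtain ⟨M1, hM1, ha⟩ := ha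
  have hM : 0 < M1 * M2 := mul_pos hM1 hM2
  replace ha := ha.of_dvd (dvd_mul_right M1 M2)
  replace hp := hp.of_dvd (dvd_mul_left M2 M1)
  generalize M1 * M2 = M at hM ha hp
  have key : ∀ r, ∃ τ : Equiv.Perm ℤ, (0 ≤ r ∧ r < M) ∧ p r → τ ∈ gens ∧
      (∀ x, x % M = r → τ x = t x ∧ τ (t x) = x) ∧
      ∀ x, x % M ≠ r → t x % M ≠ r → τ x = x := by
    intro r
    by_cases hr : (0 ≤ r ∧ r < M) ∧ p r
    swap
    · exact ⟨1, fun h => absurd h hr⟩
    obtain ⟨⟨h0, h1⟩, hpr⟩ := hr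
    obtain ⟨d, hd⟩ := ha r
    have h2 : t r < d := by
      have a1 := hs (r + -1 * M)
      rw [hd] at a1
      by_contra hc
      have := a1.1 (by omega)
      omega
    let A : RC := ⟨r, M, h0, h1⟩
    let B : RC := ⟨t r, d, (hs r).2 h0, h2⟩
    have hA : ∀ x, A.Mem x ↔ x % M = r := fun x => by
      rw [mem_iff_modEq]
      show x % M = r % M ↔ _
      rw [Int.emod_eq_of_lt h0 h1]
    have hAB : ∀ k, t (A.pt k) = B.pt k := fun k => by
      show t (r + M * k) = t r + d * k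
      rw [mul_comm M, hd, mul_comm d]
    have hpA : ∀ x, A.Mem x → p x := by
      rintro x ⟨k, rfl⟩
      show p (r + M * k)
      rw [mul_comm, hp]
      exact hpr
    obtain ⟨τ, g1, g2, g3, g4⟩ := exists_transp (A := A) (B := B) (by
      rintro n ⟨a1, k, rfl⟩
      rw [← hAB] at a1
      exact hpp _ (hpA _ (mem_pt A k)) (hpA _ a1))
    refine ⟨τ, fun _ => ⟨g1, fun x hx => ?_, fun x a1 a2 => g4 x (fun c => a1 ((hA x).1 c)) ?_⟩⟩
    · obtain ⟨k, rfl⟩ := (hA x).2 hx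
      rw [hAB, g2, g3]
      exact ⟨rfl, rfl⟩
    · rintro ⟨k, rfl⟩
      rw [← hAB, htt] at a2
      exact a2 ((hA _).1 (mem_pt A k))
  choose τ key using key
  let S : Finset ℤ := (Finset.Ico 0 M).filter p
  have hS : ∀ r, r ∈ S.toList ↔ (0 ≤ r ∧ r < M) ∧ p r := fun r => by simp [S]
  have hmod : ∀ x, p (x % M) = p x := fun x => hp.eq (Int.emod_emod_of_dvd x dvd_rfl)
  have hSm : ∀ x, p x → x % M ∈ S.toList := fun x hx =>
    (hS _).2 ⟨⟨Int.emod_nonneg _ hM.ne', Int.emod_lt_of_pos _ hM⟩, (hmod x).symm ▸ hx⟩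
  have hpw : (S.toList.map τ).Pairwise Equiv.Perm.Disjoint := by
    rw [List.pairwise_map]
    refine S.nodup_toList.pairwise_of_forall_ne fun r hr r' hr' hne x => ?_
    have k1 := (key r ((hS r).1 hr)).2.2 x
    have k2 := (key r' ((hS r').1 hr')).2.2 x
    have p1 := ((hS r).1 hr).2
    have p2 := ((hS r').1 hr').2
    by_cases a1 : x % M = r
    · refine Or.inr (k2 (fun e => hne (a1.symm.trans e)) fun e => ?_)
      rw [← a1, hmod] at p1
      rw [← e, hmod] at p2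
      exact hpp x p1 p2
    · by_cases a2 : t x % M = r
      · refine Or.inr (k2 (fun e => ?_) fun e => hne (a2.symm.trans e))
        rw [← a2, hmod] at p1
        rw [← e, hmod] at p2
        exact hpp x p2 p1
      · exact Or.inl (k1 a1 a2)
  refine ⟨S.toList.map τ, fun ρ hρ => ?_, hpw, ?_⟩
  · obtain ⟨r, hr, rfl⟩ := List.mem_map.1 hρ
    exact (key r ((hS r).1 hr)).1
  · ext x
    by_cases hx : t x = x
    · rw [hx]
      refine prod_fix fun ρ hρ => ?_
      obtain ⟨r, hr, rfl⟩ := List.mem_map.1 hρ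
      have k1 := key r ((hS r).1 hr)
      by_cases a1 : x % M = r
      · exact (k1.2.1 x a1).1.trans hx
      · exact k1.2.2 x a1 (by rwa [hx])
    · have a1 : x % M0 ≠ t x % M0 := fun e => hx (hsep x (Int.ModEq.dvd e))
      rcases lt_or_gt_of_ne a1 with a2 | a2
      · have hr := hSm x a2
        have k1 := ((key _ ((hS _).1 hr)).2.1 x rfl).1
        rw [prod_move hpw (List.mem_map_of_mem hr) (by rwa [k1]), k1]
      · have hr := hSm (t x) (by simpa only [p, htt] using a2)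
        have k2 := ((key _ ((hS _).1 hr)).2.1 (t x) rfl).2
        rw [htt] at k2
        rw [prod_move hpw (List.mem_map_of_mem hr) (by rwa [k2]), k2]

end Pool.Agent.Lib.MP_2b3d4e_al.Tr
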