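import Pool.Agent.Lib.MP_2b3d4e_al.Tr.Tower

/-! An element that is not a product of two rounds. -/

namespace Pool.Agent.Lib.MP_2b3d4e_al.Tr

/-- `0(2) → 0(4)`, `1(8) → 2(4)`, `3(8) → 1(4)`, `5(8) → 3(8)`, `7(8)` fixed. -/
def exF (x : ℤ) : ℤ :=
  if x % 2 = 0 then 0 + 2 * x else if x % 8 = 1 then (x + 3) / 2
  else if x % 8 = 3 then (x + -1) / 2 else if x % 8 = 5 then x + -2 else x

/-- The inverse map. -/
def exG (x : ℤ) : ℤ :=
  if x % 4 = 0 then x / 2 else if x % 4 = 2 then 2 * x - 3
  else if x % 4 = 1 then 2 * x + 1 else if x % 8 = 3 then x + 2 else x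

/-- The example as a permutation. -/
def exP : Equiv.Perm ℤ where
  toFun := exF
  invFun := exG
  left_inv x := by
    unfold exF
    split_ifs <;> unfold exG <;> split_ifs <;> omega
  right_inv x := by
    unfold exG
    split_ifs <;> unfold exF <;> split_ifs <;> omega

theorem exP_mem : exP ∈ CT := by
  refine mem_iff.2 ⟨?_, fun x => ?_⟩
  · exact Aff.ite (aff_id.modeq two_pos 0) (aff_lin 0 2)
      (Aff.ite (aff_id.modeq (by norm_num) 1) ((aff_id.add_const 3).div two_pos)
        (Aff.ite (aff_id.modeq (by norm_num) 3) ((aff_id.add_const (-1)).div two_pos)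
          (Aff.ite (aff_id.modeq (by norm_num) 5) (aff_id.add_const (-2)) aff_id)))
  · show 0 ≤ exF x ↔ _
    unfold exF
    split_ifs <;> omega

theorem exF_even (x : ℤ) : exF (2 * x) = 4 * x := by
  unfold exF
  split_ifs <;> omega

theorem exF_seven (x : ℤ) (h : x % 8 = 7) : exF x = x := by
  unfold exF
  split_ifs <;> omega

theorem exF_fix (x : ℤ) (h : exF x = x) : x = 0 ∨ x % 8 = 7 := by
  unfold exF at h
  split_ifs at h <;> omega

theorem exP_not_two {a b : Equiv.Perm ℤ} (ha : Aff a) (haa : a * a = 1) (hbb : b * b = 1) :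
    exP ≠ a * b := by
  intro e
  have h1 : exP * a * exP = a := by
    rw [e, mul_assoc, mul_assoc, ← mul_assoc a a b, haa, one_mul, hbb, mul_one]
  have h2 : ∀ x, exF (a (exF x)) = a x := fun x => congrArg (fun g : Equiv.Perm ℤ => g x) h1
  obtain ⟨M, hM, ha⟩ := ha
  obtain ⟨d, hd⟩ := ha 0
  simp only [zero_add] at hd
  have h3 := h2 (2 * 0)
  have h4 := h2 (2 * (4 * M))
  rw [exF_even] at h3 h4
  simp only [mul_zero] at h3
  rw [show 4 * (4 * M) = 16 * M by ring, show 2 * (4 * M) = 8 * M by ring, hd, hd] at h4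
  have h5 : d = 0 := by
    rcases exF_fix _ h3 with h | h
    · rw [h, show 0 + 16 * d = 2 * (8 * d) by ring, exF_even] at h4
      omega
    · rw [exF_seven _ (by omega)] at h4
      omega
  have h6 := hd 1
  rw [h5, mul_zero, add_zero, one_mul] at h6
  exact hM.ne' (a.injective h6)

end Pool.Agent.Lib.MP_2b3d4e_al.Tr
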