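import Pool.Agent.Lib.MP_2b3d4e_al.Tr.Walk

/-! Construction of the tower; every element is a product of three rounds. -/

namespace Pool.Agent.Lib.MP_2b3d4e_al.Tr

theorem exists_labels {γ : Equiv.Perm ℤ} (h : γ ∈ CT) :
    ∃ n : ℕ, 0 < n ∧ ∃ t S : ℕ → Equiv.Perm ℤ, (∀ i, t i ∈ CT ∧ t i * t i = 1) ∧ S n = 1 ∧
      S 0 = γ ∧ ∀ i < n, S i = t i * S (i + 1) := by
  have step : ∀ τ ∈ gens, ∀ γ : Equiv.Perm ℤ,
      (∃ n : ℕ, 0 < n ∧ ∃ t S : ℕ → Equiv.Perm ℤ, (∀ i, t i ∈ CT ∧ t i * t i = 1) ∧ S n = 1 ∧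
        S 0 = γ ∧ ∀ i < n, S i = t i * S (i + 1)) →
      ∃ n : ℕ, 0 < n ∧ ∃ t S : ℕ → Equiv.Perm ℤ, (∀ i, t i ∈ CT ∧ t i * t i = 1) ∧ S n = 1 ∧
        S 0 = τ * γ ∧ ∀ i < n, S i = t i * S (i + 1) := by
    rintro τ hτ γ ⟨n, -, t, S, h1, h2, h3, h4⟩
    refine ⟨n + 1, Nat.succ_pos n, fun i => Nat.casesOn i τ t, fun i => Nat.casesOn i (τ * γ) S,
      fun i => ?_, h2, rfl, fun i hi => ?_⟩
    · cases i with
      | zero => exact ⟨Subgroup.subset_closure hτ, gens_sq hτ⟩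
      | succ i => exact h1 i
    · cases i with
      | zero => exact congrArg (τ * ·) h3.symm
      | succ i => exact h4 i (by omega)
  unfold CT at h
  induction h using Subgroup.closure_induction_left with
  | one => exact ⟨1, one_pos, fun _ => 1, fun _ => 1, fun _ => ⟨CT.one_mem, mul_one 1⟩, rfl, rfl,
      fun _ _ => (mul_one 1).symm⟩
  | mul_left x hx y _ ih => exact step x hx y ih
  | inv_mul_cancel x hx y _ ih =>
    rw [inv_eq_of_mem_gens hx]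
    exact step x hx y ih

theorem exists_base {σ : Equiv.Perm ℤ} (hσ : σ ∈ CT) {x : ℤ}
    (hx : ∀ j : ℤ, 1 ≤ j → j ≤ 5 → (σ ^ j) x ≠ x) :
    ∃ a m : ℤ, 0 ≤ a ∧ a < m ∧
      ∀ y (j : ℤ), y % m = a → 1 ≤ j → j ≤ 5 → (σ ^ j) y % m ≠ a := by
  let m0 : ℤ := (∑ j ∈ Finset.Icc (1 : ℤ) 5, |(σ ^ j) x - x|) + 1
  have hm0 : 0 < m0 := by positivity
  have hlt : ∀ j : ℤ, 1 ≤ j → j ≤ 5 → |(σ ^ j) x - x| < m0 := fun j h1 h2 =>
    Int.lt_add_one_of_le (Finset.single_le_sum (f := fun j : ℤ => |(σ ^ j) x - x|)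
      (fun _ _ => abs_nonneg _) (Finset.mem_Icc.2 ⟨h1, h2⟩))
  obtain ⟨M, hM, hp⟩ := per_pi fun j : Finset.Icc (1 : ℤ) 5 =>
    (mem_iff.1 (CT.zpow_mem hσ (j : ℤ))).1.mod hm0
  have hm : 0 < M * m0 := mul_pos hM hm0
  refine ⟨x % (M * m0), M * m0, Int.emod_nonneg _ hm.ne', Int.emod_lt_of_pos _ hm,
    fun y j hy h1 h2 h3 => hx j h1 h2 ?_⟩
  have a1 : (σ ^ j) y % m0 = (σ ^ j) x % m0 :=
    congrFun ((hp.of_dvd (dvd_mul_right M m0)).eq hy) ⟨j, Finset.mem_Icc.2 ⟨h1, h2⟩⟩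
  have a2 : (σ ^ j) y % m0 = x % m0 := Int.ModEq.of_mul_left M h3
  have a3 := Int.eq_zero_of_abs_lt_dvd (Int.ModEq.dvd (a2.symm.trans a1)) (hlt j h1 h2)
  linarith

theorem exists_tower {σ : Equiv.Perm ℤ} (hσ : σ ∈ CT) {a m : ℤ} (h0 : 0 ≤ a) (h1 : a < m)
    (H : ∀ y (j : ℤ), y % m = a → 1 ≤ j → j ≤ 5 → (σ ^ j) y % m ≠ a) :
    ∃ c : ℤ → ℤ, Aff c ∧ Sg c ∧ Nonempty (Tw σ c) := by
  classical
  have hm : 0 < m := by omega
  obtain ⟨s, hs, hs0, hs1, hs2, hsA, hsS, H'⟩ : ∃ s : ℤ → ℤ → ℤ,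
      (∀ i j x, s i (s j x) = s (i + j) x) ∧ (∀ x, s 0 x = x) ∧ (∀ x, σ x = s 1 x) ∧
      (∀ x, σ⁻¹ x = s (-1) x) ∧ (∀ j, Aff (s j)) ∧ (∀ j, Sg (s j)) ∧
      ∀ x i j, s i x % m = a → i < j → j ≤ i + 5 → s j x % m ≠ a := by
    refine ⟨fun j x => (σ ^ j) x, zz σ, fun x => by simp, fun x => by simp, fun x => by simp,
      fun j => (mem_iff.1 (CT.zpow_mem hσ j)).1, fun j => (mem_iff.1 (CT.zpow_mem hσ j)).2,
      fun x i j a1 a2 a3 => ?_⟩
    have := H _ (j - i) a1 (by omega) (by omega)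
    rwa [zz, sub_add_cancel] at this
  have H2 : ∀ x i j, s i x % m = a → j ≠ i → i - 5 ≤ j → j ≤ i + 5 → s j x % m ≠ a := by
    intro x i j a1 a2 a3 a4 a5
    rcases lt_or_gt_of_ne a2 with h | h
    · exact H' x j i a5 h (by omega) a1
    · exact H' x i j a1 h a4 a5
  let P : ℤ → ℤ := fun q => a + m * q
  have hP : ∀ q, P q % m = a := lin_mod h0 h1
  have hPd : ∀ q, P q / m = q := lin_div h0 h1
  have hPs : ∀ q, 0 ≤ P q ↔ 0 ≤ q := fun q => lin_nonneg h0 h1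
  have hPe : ∀ x, x % m = a → P (x / m) = x := fun x hx => by
    show a + m * (x / m) = x
    rw [← hx, Int.emod_add_mul_ediv]
  have hN : ∀ (k : ℤ) q, k ≠ 0 → -5 ≤ k → k ≤ 5 → s k (P q) % m ≠ a := fun k q a1 a2 a3 =>
    H2 (P q) 0 k (by rw [hs0]; exact hP q) a1 (by omega) (by omega)
  let u : ℤ → Prop := fun x => s 1 x % m ≠ a ∧ s 0 x % m ≠ a ∧ s (-1) x % m ≠ a ∧
    s (-2) x % m ≠ a ∧ s (-3) x % m ≠ a
  have hu4 : ∀ q, u (s 4 (P q)) := fun q => by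
    simp only [u, hs]
    refine ⟨?_, ?_, ?_, ?_, ?_⟩ <;> exact hN _ q (by norm_num) (by norm_num) (by norm_num)
  have huP : Per u := by
    have := per_pi fun j : Fin 5 => (hsA (1 - (j : ℕ))).modeq hm a
    exact this.map fun v => ¬ v 0 ∧ ¬ v 1 ∧ ¬ v 2 ∧ ¬ v 3 ∧ ¬ v 4
  obtain ⟨φ, φ', hφA, hφA', hφS, hφu, hφ1, hφ2⟩ := exists_coord huP ⟨_, hu4 0⟩
  have hφS' : ∀ x, u x → (0 ≤ φ' x ↔ 0 ≤ x) := fun x hx => by rw [← hφS, hφ2 x hx]
  let fw : ℤ → ℤ := fun x => if s 2 x % m = a then s 6 x else s 1 x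
  let bw : ℤ → ℤ := fun x => if s (-4) x % m = a then s (-6) x else s (-1) x
  have hfw : ∀ x, u x → u (fw x) ∧ bw (fw x) = x := by
    rintro x ⟨a1, a2, a3, a4, a5⟩
    by_cases h : s 2 x % m = a
    · simp only [u, fw, bw, if_pos h, hs, Int.reduceNeg, Int.reduceAdd, hs0]
      refine ⟨⟨?_, ?_, ?_, ?_, ?_⟩, trivial⟩
      · exact H2 x 2 _ h (by norm_num) (by norm_num) (by norm_num)
      · have := H2 x 2 6 h (by norm_num) (by norm_num) (by norm_num)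
        exact this
      all_goals exact H2 x 2 _ h (by norm_num) (by norm_num) (by norm_num)
    · simp only [u, fw, bw, if_neg h, hs, Int.reduceNeg, Int.reduceAdd, hs0, if_neg a5]
      rw [hs0] at a2
      exact ⟨⟨h, a1, a2, a3, a4⟩, trivial⟩
  have hbw : ∀ x, u x → u (bw x) ∧ fw (bw x) = x := by
    rintro x ⟨a1, a2, a3, a4, a5⟩
    by_cases h : s (-4) x % m = a
    · simp only [u, fw, bw, if_pos h, hs, Int.reduceNeg, Int.reduceAdd, hs0]
      refine ⟨⟨?_, ?_, ?_, ?_, ?_⟩, trivial⟩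
      · exact H2 x (-4) _ h (by norm_num) (by norm_num) (by norm_num)
      · have := H2 x (-4) (-6) h (by norm_num) (by norm_num) (by norm_num)
        exact this
      all_goals exact H2 x (-4) _ h (by norm_num) (by norm_num) (by norm_num)
    · simp only [u, fw, bw, if_neg h, hs, Int.reduceNeg, Int.reduceAdd, hs0, if_neg a1]
      rw [hs0] at a2
      exact ⟨⟨a2, a3, a4, a5, h⟩, trivial⟩
  let γ : Equiv.Perm ℤ := ⟨fun y => φ' (bw (φ y)), fun y => φ' (fw (φ y)),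
    fun y => by
      show φ' (fw (φ (φ' (bw (φ y))))) = y
      rw [hφ2 _ (hbw _ (hφu y)).1, (hbw _ (hφu y)).2, hφ1],
    fun y => by
      show φ' (bw (φ (φ' (fw (φ y))))) = y
      rw [hφ2 _ (hfw _ (hφu y)).1, (hfw _ (hφu y)).2, hφ1]⟩
  have hγ : γ ∈ CT := by
    refine mem_iff.2 ⟨?_, fun y => ?_⟩
    · exact hφA'.comp ((Aff.ite ((hsA (-4)).modeq hm a) (hsA (-6)) (hsA (-1))).comp hφA)
    · show 0 ≤ φ' (bw (φ y)) ↔ _
      rw [hφS' _ (hbw _ (hφu y)).1, ← hφS y]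
      simp only [bw]
      split_ifs
      · exact hsS _ _
      · exact hsS _ _
  have hγφ : ∀ y, φ (γ y) = bw (φ y) := fun y => hφ2 _ (hbw _ (hφu y)).1
  obtain ⟨n, hn, t, S, ht, hSn, hS0, hSs⟩ := exists_labels hγ
  have hn' : (0 : ℤ) < n := by exact_mod_cast hn
  let T : ℤ → ℤ := fun q => q % n + n * t (q % n).toNat (q / n)
  have hTA : Aff T := by
    refine aff_family n (F := fun i q => q % n + n * t i (q / n)) (fun i => ?_)
      ((aff_id.mod hn').map Int.toNat) fun q => ?_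
    · simpa using (aff_id.mod hn').aff.add
        (((mem_iff.1 (ht i).1).1.comp (aff_id.div hn')).lin 0 n)
    · have := Int.emod_lt_of_pos q hn'
      omega
  have hTS : Sg T := fun q => by
    show 0 ≤ q % n + n * t (q % n).toNat (q / n) ↔ _
    rw [lin_nonneg (Int.emod_nonneg _ hn'.ne') (Int.emod_lt_of_pos _ hn'),
      (mem_iff.1 (ht _).1).2, Int.ediv_nonneg_iff_of_pos hn']
  obtain ⟨c, hc⟩ : ∃ c : ℤ → ℤ, c = fun x =>
      if x % m = a then (if x / m % n = 0 then φ (x / m / n) else s 1 (P (x / m + -1)))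
      else if s (-1) x % m = a then
        (if (s (-1) x / m + 1) % n = 0 then x else P (s (-1) x / m + 1))
      else if s (-2) x % m = a then s 2 (P (T (s (-2) x / m)))
      else if s (-3) x % m = a then s (-4) x
      else if s 1 x % m = a then s 4 x
      else P (0 + n * φ' x) := ⟨_, rfl⟩
  have hcA : Aff c := by
    rw [hc]
    refine Aff.ite (aff_id.modeq hm a) (Aff.ite ((aff_id.div hm).modeq hn' 0)
      (hφA.comp ((aff_id.div hm).div hn'))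
      ((hsA 1).comp (((aff_id.div hm).add_const (-1)).lin a m))) ?_
    refine Aff.ite ((hsA (-1)).modeq hm a)
      (Aff.ite ((((hsA (-1)).div hm).add_const 1).modeq hn' 0) aff_id
        ((((hsA (-1)).div hm).add_const 1).lin a m)) ?_
    refine Aff.ite ((hsA (-2)).modeq hm a)
      ((hsA 2).comp ((hTA.comp ((hsA (-2)).div hm)).lin a m)) ?_
    refine Aff.ite ((hsA (-3)).modeq hm a) (hsA (-4)) ?_
    exact Aff.ite ((hsA 1).modeq hm a) (hsA 4) ((hφA'.lin 0 n).lin a m)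
  have N : ∀ (k : ℤ) q, (k ≠ 0 ∧ -5 ≤ k ∧ k ≤ 5) → (s k (P q) % m = a) = False :=
    fun k q h => eq_false (hN k q h.1 h.2.1 h.2.2)
  have e0 : ∀ y, c (P (n * y)) = φ y := fun y => by
    simp only [hc, hP, hPd, if_true, Int.mul_emod_right, Int.mul_ediv_cancel_left _ hn'.ne']
  have e0' : ∀ q : ℤ, (q + 1) % n ≠ 0 → c (P (q + 1)) = s 1 (P q) := fun q h => by
    simp only [hc, hP, hPd, if_true, if_neg h, add_neg_cancel_right]
  have e1 : ∀ q : ℤ, (q + 1) % n ≠ 0 → c (s 1 (P q)) = P (q + 1) := fun q h => by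
    simp only [hc, hs, Int.reduceNeg, Int.reduceAdd, hs0, hP, hPd, if_true, if_neg h,
      N 1 q (by norm_num), if_false]
  have e1' : ∀ q : ℤ, (q + 1) % n = 0 → c (s 1 (P q)) = s 1 (P q) := fun q h => by
    simp only [hc, hs, Int.reduceNeg, Int.reduceAdd, hs0, hP, hPd, if_true, if_pos h,
      N 1 q (by norm_num), if_false]
  have e2 : ∀ q, c (s 2 (P q)) = s 2 (P (T q)) := fun q => by
    simp only [hc, hs, Int.reduceNeg, Int.reduceAdd, hs0, hP, hPd, if_true,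
      N 1 q (by norm_num), N 2 q (by norm_num), if_false]
  have e3 : ∀ q, c (s 3 (P q)) = s (-1) (P q) := fun q => by
    simp only [hc, hs, Int.reduceNeg, Int.reduceAdd, hs0, hP, if_true,
      N 1 q (by norm_num), N 2 q (by norm_num), N 3 q (by norm_num), if_false]
  have e4 : ∀ q, c (s (-1) (P q)) = s 3 (P q) := fun q => by
    simp only [hc, hs, Int.reduceNeg, Int.reduceAdd, hs0, hP, if_true,
      N (-1) q (by norm_num), N (-2) q (by norm_num), N (-3) q (by norm_num),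
      N (-4) q (by norm_num), if_false]
  have e5 : ∀ y, c (φ y) = P (n * y) := fun y => by
    obtain ⟨a1, a2, a3, a4, a5⟩ := hφu y
    rw [hs0] at a2
    simp only [hc, if_neg a1, if_neg a2, if_neg a3, if_neg a4, if_neg a5, hφ1, zero_add]
  have lev : ∀ (k : ℤ) x, s (-k) x % m = a → ∃ q, x = s k (P q) := fun k x h =>
    ⟨_, by rw [hPe _ h, hs, add_neg_cancel, hs0]⟩
  have cover : ∀ x, (∃ q, x = P q) ∨ (∃ q, x = s 1 (P q)) ∨ (∃ q, x = s 2 (P q)) ∨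
      (∃ q, x = s 3 (P q)) ∨ (∃ q, x = s (-1) (P q)) ∨ ∃ y, x = φ y := by
    intro x
    by_cases a2 : x % m = a
    · exact Or.inl ⟨_, (hPe x a2).symm⟩
    by_cases a3 : s (-1) x % m = a
    · exact Or.inr (Or.inl (lev 1 x a3))
    by_cases a4 : s (-2) x % m = a
    · exact Or.inr (Or.inr (Or.inl (lev 2 x a4)))
    by_cases a5 : s (-3) x % m = a
    · exact Or.inr (Or.inr (Or.inr (Or.inl (lev 3 x a5))))
    by_cases a1 : s 1 x % m = a
    · exact Or.inr (Or.inr (Or.inr (Or.inr (Or.inl (lev (-1) x a1)))))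
    · exact Or.inr (Or.inr (Or.inr (Or.inr (Or.inr
        ⟨_, (hφ2 x ⟨a1, by rwa [hs0], a3, a4, a5⟩).symm⟩))))
  have hq : ∀ q : ℤ, (q + 1) % n ≠ 0 → (0 ≤ q + 1 ↔ 0 ≤ q) := fun q h => by
    have : q + 1 ≠ 0 := fun e => h (by rw [e, Int.zero_emod])
    omega
  have hny : ∀ y : ℤ, 0 ≤ n * y ↔ 0 ≤ y := fun y => by
    simpa using lin_nonneg (q := y) le_rfl hn'
  have hcS : Sg c := by
    intro x
    rcases cover x with ⟨q, rfl⟩ | ⟨q, rfl⟩ | ⟨q, rfl⟩ | ⟨q, rfl⟩ | ⟨q, rfl⟩ | ⟨y, rfl⟩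
    · by_cases h : q % n = 0
      · obtain ⟨y, rfl⟩ := Int.dvd_of_emod_eq_zero h
        rw [e0, hφS, hPs, hny]
      · obtain ⟨q', rfl⟩ : ∃ q', q = q' + 1 := ⟨q - 1, by ring⟩
        rw [e0' _ h, hsS, hPs, hPs, hq _ h]
    · by_cases h : (q + 1) % n = 0
      · rw [e1' _ h]
      · rw [e1 _ h, hsS, hPs, hPs, hq _ h]
    · rw [e2, hsS, hsS, hPs, hPs, hTS]
    · rw [e3, hsS, hsS]
    · rw [e4, hsS, hsS]
    · rw [e5, hφS, hPs, hny]
  refine ⟨c, hcA, hcS, ⟨⟨P, φ, T, n, t, S, hn, fun i => (ht i).2, hSn, hSs, fun i hi y => ?_, e0,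
    ?_, ?_, ?_, ?_, ?_, ?_, e5, ?_, fun y => ?_, fun q => ?_⟩⟩⟩
  · have b1 : (0 : ℤ) ≤ i := by positivity
    have b2 : (i : ℤ) < n := by exact_mod_cast hi
    show ((i : ℤ) + n * y) % n + n * t (((i : ℤ) + n * y) % n).toNat (((i : ℤ) + n * y) / n) = _
    rw [lin_mod b1 b2, lin_div b1 b2, Int.toNat_natCast]
  · simpa only [hs1] using e0'
  · simpa only [hs1] using e1
  · simpa only [hs1] using e1'
  · simpa only [hs1, hs, Int.reduceAdd] using e2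
  · simpa only [hs1, hs2, hs, Int.reduceAdd] using e3
  · simpa only [hs1, hs2, hs, Int.reduceAdd] using e4
  · simpa only [hs1, hs2, hs, Int.reduceAdd] using cover
  · rw [hS0, hγφ]
    by_cases h : s (-4) (φ y) % m = a
    · refine Or.inr ⟨s (-4) (φ y) / m, ?_, ?_⟩
      · simp only [bw, if_pos h, hPe _ h, hs1, hs2, hs, Int.reduceNeg, Int.reduceAdd]
      · simp only [hPe _ h, hs1, hs, Int.reduceNeg, Int.reduceAdd, hs0]
    · refine Or.inl ?_
      simp only [bw, if_neg h, hs1, hs, Int.reduceNeg, Int.reduceAdd, hs0]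
  · refine ⟨φ' (s 4 (P q)), ?_⟩
    rw [hφ2 _ (hu4 q)]
    simp only [hs1, hs, Int.reduceAdd]

/-- Every element is a product of three rounds. -/
theorem three_rounds {σ : Equiv.Perm ℤ} (hσ : σ ∈ CT) :
    ∃ a b c, IsRd a ∧ IsRd b ∧ IsRd c ∧ σ = a * b * c := by
  by_cases h : ∃ x, ∀ j : ℤ, 1 ≤ j → j ≤ 5 → (σ ^ j) x ≠ x
  · obtain ⟨x, hx⟩ := h
    obtain ⟨a, m, h0, h1, H⟩ := exists_base hσ hx
    obtain ⟨c, hA, hS, ⟨D⟩⟩ := exists_tower hσ h0 h1 H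
    have hc : D.invol.toPerm c ∈ CT := mem_iff.2 ⟨hA, hS⟩
    have hcc : D.invol.toPerm c * D.invol.toPerm c = 1 := by
      ext x
      exact D.invol x
    obtain ⟨a, ha, b, hb, haa, hbb, e⟩ := two_inv (CT.mul_mem hσ hc) (by positivity) D.pow_eq
    refine ⟨a, b, _, rd_of_inv ha haa, rd_of_inv hb hbb, rd_of_inv hc hcc, ?_⟩
    rw [← e, mul_assoc, hcc, mul_one]
  · push Not at h
    have h60 : σ ^ 60 = 1 := by
      ext x
      obtain ⟨j, h1, h2, h3⟩ := h x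
      obtain ⟨k, hk⟩ : j ∣ 60 := by interval_cases j <;> norm_num
      have : (σ ^ (60 : ℕ)) = (σ ^ j) ^ k := by
        rw [← zpow_mul, ← hk, ← zpow_natCast]
        rfl
      rw [this, Equiv.Perm.one_apply]
      exact Equiv.Perm.zpow_apply_eq_self_of_apply_eq_self h3 k
    obtain ⟨a, ha, b, hb, haa, hbb, e⟩ := two_inv hσ (by norm_num) h60
    exact ⟨a, b, 1, rd_of_inv ha haa, rd_of_inv hb hbb, rd_of_inv CT.one_mem (mul_one 1),
      by rw [mul_one, e]⟩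

end Pool.Agent.Lib.MP_2b3d4e_al.Tr
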