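import Pool.Agent.Lib.MP_2b3d4e_al.Tr.Fin

/-! The walk along the tower: the rules of the involution `c` make `σ c` periodic. -/

namespace Pool.Agent.Lib.MP_2b3d4e_al.Tr

/-- The data of a tower with the rules of the map `c`. -/
structure Tw (σ : Equiv.Perm ℤ) (c : ℤ → ℤ) where
  /-- coordinate on the base -/
  P : ℤ → ℤ
  /-- coordinate outside the tower -/
  φ : ℤ → ℤ
  /-- the labels on level two -/
  T : ℤ → ℤ
  /-- number of columns -/
  n : ℕ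
  /-- the labels -/
  t : ℕ → Equiv.Perm ℤ
  /-- the products of the labels -/
  S : ℕ → Equiv.Perm ℤ
  npos : 0 < n
  tt : ∀ i, t i * t i = 1
  Sn : S n = 1
  Ss : ∀ i < n, S i = t i * S (i + 1)
  hT : ∀ i < n, ∀ y, T (i + n * y) = i + n * t i y
  e0 : ∀ y, c (P (n * y)) = φ y
  e0' : ∀ q : ℤ, (q + 1) % n ≠ 0 → c (P (q + 1)) = σ (P q)
  e1 : ∀ q : ℤ, (q + 1) % n ≠ 0 → c (σ (P q)) = P (q + 1)
  e1' : ∀ q : ℤ, (q + 1) % n = 0 → c (σ (P q)) = σ (P q)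
  e2 : ∀ q, c (σ (σ (P q))) = σ (σ (P (T q)))
  e3 : ∀ q, c (σ (σ (σ (P q)))) = σ⁻¹ (P q)
  e4 : ∀ q, c (σ⁻¹ (P q)) = σ (σ (σ (P q)))
  e5 : ∀ y, c (φ y) = P (n * y)
  cover : ∀ x, (∃ q, x = P q) ∨ (∃ q, x = σ (P q)) ∨ (∃ q, x = σ (σ (P q))) ∨
    (∃ q, x = σ (σ (σ (P q)))) ∨ (∃ q, x = σ⁻¹ (P q)) ∨ ∃ y, x = φ y
  ret : ∀ y, σ (φ (S 0 y)) = φ y ∨ ∃ q, σ (φ (S 0 y)) = σ⁻¹ (P q) ∧ σ (σ (σ (σ (P q)))) = φ y
  top : ∀ q, ∃ y, σ (σ (σ (σ (P q)))) = φ y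

namespace Tw

variable {σ : Equiv.Perm ℤ} {c : ℤ → ℤ} (D : Tw σ c)

theorem split (q : ℤ) : ∃ i < D.n, ∃ y, q = i + D.n * y := by
  have h0 : (0 : ℤ) < D.n := by exact_mod_cast D.npos
  have h1 := Int.emod_nonneg q h0.ne'
  have h2 := Int.emod_lt_of_pos q h0
  refine ⟨(q % D.n).toNat, by omega, q / D.n, ?_⟩
  rw [Int.toNat_of_nonneg h1, Int.emod_add_mul_ediv]

theorem mod_ne {i : ℕ} (h : i + 1 < D.n) (y : ℤ) : ((i : ℤ) + D.n * y + 1) % D.n ≠ 0 := by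
  rw [show (i : ℤ) + D.n * y + 1 = (i + 1) + D.n * y by ring,
    lin_mod (by positivity) (by exact_mod_cast h)]
  positivity

theorem mod_eq {i : ℕ} (h : i + 1 = D.n) (y : ℤ) : ((i : ℤ) + D.n * y + 1) % D.n = 0 := by
  have : (D.n : ℤ) = i + 1 := by exact_mod_cast h.symm
  rw [show (i : ℤ) + D.n * y + 1 = D.n * (y + 1) by rw [mul_add, mul_one]; linarith]
  exact Int.mul_emod_right _ _

theorem TT (q : ℤ) : D.T (D.T q) = q := by
  obtain ⟨i, hi, y, rfl⟩ := D.split q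
  rw [D.hT i hi, D.hT i hi, ← Equiv.Perm.mul_apply, D.tt, Equiv.Perm.one_apply]

include D in
theorem invol : Function.Involutive c := by
  intro x
  rcases D.cover x with ⟨q, rfl⟩ | ⟨q, rfl⟩ | ⟨q, rfl⟩ | ⟨q, rfl⟩ | ⟨q, rfl⟩ | ⟨y, rfl⟩
  · by_cases h : q % D.n = 0
    · obtain ⟨y, rfl⟩ := Int.dvd_of_emod_eq_zero h
      rw [D.e0, D.e5]
    · obtain ⟨q', rfl⟩ : ∃ q', q = q' + 1 := ⟨q - 1, by ring⟩
      rw [D.e0' _ h, D.e1 _ h]
  · by_cases h : (q + 1) % D.n = 0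
    · rw [D.e1' _ h, D.e1' _ h]
    · rw [D.e1 _ h, D.e0' _ h]
  · rw [D.e2, D.e2, D.TT]
  · rw [D.e3, D.e4]
  · rw [D.e4, D.e3]
  · rw [D.e5, D.e0]

theorem f3 (q : ℤ) : σ (c (σ (σ (σ (D.P q))))) = D.P q := by
  rw [D.e3]
  simp

theorem up (y : ℤ) : ∀ i < D.n,
    (fun x => σ (c x))^[i + 1] (D.φ y) = σ (D.P (i + D.n * y)) := by
  intro i
  induction i with
  | zero =>
    intro _
    simp [D.e5]
  | succ i ih =>
    intro hi
    rw [Function.iterate_succ_apply', ih (by omega), D.e1 _ (D.mod_ne hi y)]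
    congr 2
    push_cast
    ring

theorem down (y : ℤ) : ∀ j i : ℕ, i + j + 1 = D.n →
    (fun x => σ (c x))^[D.n + 1 + 3 * j] (D.φ y) =
      σ (σ (D.P (i + D.n * D.S (i + 1) y))) := by
  intro j
  induction j with
  | zero =>
    intro i hi
    have h : i + 1 = D.n := by omega
    rw [mul_zero, add_zero, Function.iterate_succ_apply', h, D.Sn, Equiv.Perm.one_apply]
    have := D.up y i (by omega)
    rw [h] at this
    rw [this, D.e1' _ (D.mod_eq h y)]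
  | succ j ih =>
    intro i hi
    have h : i + 1 < D.n := by omega
    rw [show D.n + 1 + 3 * (j + 1) = D.n + 1 + 3 * j + 1 + 1 + 1 by ring,
      Function.iterate_succ_apply', Function.iterate_succ_apply', Function.iterate_succ_apply',
      ih (i + 1) (by omega), D.e2, D.f3, D.hT _ h, ← Equiv.Perm.mul_apply (D.t _), ← D.Ss _ h,
      ← D.e0' _ (D.mod_ne h _)]
    congr 3
    push_cast
    ring

theorem round (y : ℤ) :
    (fun x => σ (c x))^[4 * D.n + 1] (D.φ y) = σ (D.φ (D.S 0 y)) := by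
  obtain ⟨j, hj⟩ : ∃ j, 0 + j + 1 = D.n := ⟨D.n - 1, by have := D.npos; omega⟩
  rw [show 4 * D.n + 1 = D.n + 1 + 3 * j + 1 + 1 + 1 by omega,
    Function.iterate_succ_apply', Function.iterate_succ_apply', Function.iterate_succ_apply',
    D.down y j 0 hj, D.e2, D.f3, D.hT _ D.npos, ← Equiv.Perm.mul_apply (D.t _), ← D.Ss _ D.npos,
    Nat.cast_zero, zero_add, D.e0]

theorem per_phi (y : ℤ) :
    (fun x => σ (c x))^[(4 * D.n + 1) * (4 * D.n + 2)] (D.φ y) = D.φ y := by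
  rcases D.ret y with h | ⟨q, h, h'⟩
  · have : Function.IsPeriodicPt (fun x => σ (c x)) (4 * D.n + 1) (D.φ y) := (D.round y).trans h
    exact this.mul_const _
  · have : Function.IsPeriodicPt (fun x => σ (c x)) (4 * D.n + 2) (D.φ y) := by
      show (fun x => σ (c x))^[4 * D.n + 1 + 1] (D.φ y) = _
      rw [Function.iterate_succ_apply', D.round, h, D.e4, h']
    exact this.const_mul _

/-- The point reaches the outside of the tower. -/
def Rc (x : ℤ) : Prop := ∃ k y, (fun x => σ (c x))^[k] x = D.φ y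

theorem Rc.step {x : ℤ} (h : D.Rc (σ (c x))) : D.Rc x := by
  obtain ⟨k, y, h⟩ := h
  exact ⟨k + 1, y, h⟩

theorem rc_phi (y : ℤ) : D.Rc (D.φ y) := ⟨0, y, rfl⟩

theorem rc_neg (q : ℤ) : D.Rc (σ⁻¹ (D.P q)) := by
  obtain ⟨y, hy⟩ := D.top q
  refine Rc.step D ?_
  rw [D.e4, hy]
  exact D.rc_phi y

theorem rc_col : ∀ i < D.n, ∀ y, D.Rc (D.P (i + D.n * y)) := by
  intro i
  induction i with
  | zero =>
    intro _ y
    obtain ⟨y', rfl⟩ := (D.S 0).surjective y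
    refine Rc.step D ?_
    rw [Nat.cast_zero, zero_add, D.e0]
    rcases D.ret y' with h | ⟨q, h, -⟩
    · rw [h]
      exact D.rc_phi _
    · rw [h]
      exact D.rc_neg q
  | succ i ih =>
    intro hi y
    refine Rc.step D ?_
    rw [show ((i + 1 : ℕ) : ℤ) + D.n * y = i + D.n * y + 1 by push_cast; ring,
      D.e0' _ (D.mod_ne hi y)]
    refine Rc.step D ?_
    rw [D.e2]
    refine Rc.step D ?_
    rw [D.f3, D.hT i (by omega)]
    exact ih (by omega) _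

theorem rc_zero (q : ℤ) : D.Rc (D.P q) := by
  obtain ⟨i, hi, y, rfl⟩ := D.split q
  exact D.rc_col i hi y

theorem rc_three (q : ℤ) : D.Rc (σ (σ (σ (D.P q)))) := by
  refine Rc.step D ?_
  rw [D.f3]
  exact D.rc_zero q

theorem rc_two (q : ℤ) : D.Rc (σ (σ (D.P q))) := by
  refine Rc.step D ?_
  rw [D.e2]
  exact D.rc_three _

theorem rc_one_col (y : ℤ) : ∀ j i : ℕ, i + j + 1 = D.n → D.Rc (σ (D.P (i + D.n * y))) := by
  intro j
  induction j with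
  | zero =>
    intro i hi
    refine Rc.step D ?_
    rw [D.e1' _ (D.mod_eq (by omega) y)]
    exact D.rc_two _
  | succ j ih =>
    intro i hi
    refine Rc.step D ?_
    rw [D.e1 _ (D.mod_ne (by omega) y),
      show (i : ℤ) + D.n * y + 1 = ((i + 1 : ℕ) : ℤ) + D.n * y by push_cast; ring]
    exact ih (i + 1) (by omega)

theorem rc_all (x : ℤ) : D.Rc x := by
  rcases D.cover x with ⟨q, rfl⟩ | ⟨q, rfl⟩ | ⟨q, rfl⟩ | ⟨q, rfl⟩ | ⟨q, rfl⟩ | ⟨y, rfl⟩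
  · exact D.rc_zero q
  · obtain ⟨i, hi, y, rfl⟩ := D.split q
    exact D.rc_one_col y (D.n - 1 - i) i (by omega)
  · exact D.rc_two q
  · exact D.rc_three q
  · exact D.rc_neg q
  · exact D.rc_phi y

theorem pow_eq : (σ * D.invol.toPerm c) ^ ((4 * D.n + 1) * (4 * D.n + 2)) = 1 := by
  ext x
  obtain ⟨k, y, h⟩ := D.rc_all x
  have e : (fun x => σ (c x)) = ⇑(σ * D.invol.toPerm c) := rfl
  have h1 := D.per_phi y
  rw [← h, e, Equiv.Perm.iterate_eq_pow, Equiv.Perm.iterate_eq_pow, ← Equiv.Perm.mul_apply,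
    ← pow_add, add_comm, pow_add, Equiv.Perm.mul_apply] at h1
  exact (_ ^ k : Equiv.Perm ℤ).injective h1

end Tw

end Pool.Agent.Lib.MP_2b3d4e_al.Tr
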